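import Pool.Agent.Lib.MP_f0c028_an.Mg.G014

set_option autoImplicit false

/-! # `A₂` weights which are exponentials of logarithmic potentials: conclusion -/

open Real

namespace Pool.Agent.Lib.MP_f0c028_an

open MeasureTheory Set Filter Topology
open scoped ENNReal

theorem pot_main {m : ℕ} (hm : 1 ≤ m) {w : ℂ → ℝ} {K : ℝ} (hpos : ∀ z, 0 < w z)
    (hw : LocallyIntegrable w volume) (hwi : LocallyIntegrable (fun z => (w z)⁻¹) volume)
    (hA : ∀ (c : ℂ) (r : ℝ), 0 < r →
        ((∫ z in Metric.ball c r, w z) / (volume (Metric.ball c r)).toReal) *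
        ((∫ z in Metric.ball c r, (w z)⁻¹) / (volume (Metric.ball c r)).toReal) ≤ K)
    {ν₁ ν₂ : Measure ℂ} {c : ℝ} [IsFiniteMeasure ν₁] [IsFiniteMeasure ν₂]
    (hν₁ : Integrable (fun a => Real.log (1 + ‖a‖)) ν₁)
    (hν₂ : Integrable (fun a => Real.log (1 + ‖a‖)) ν₂)
    (hmass : ν₁ = 0 ∨ ν₂ = 0 ∨ ν₁ univ + ν₂ univ ≤ ENNReal.ofReal (2 - 1 / K))
    (hlog : ∀ᵐ z : ℂ, Real.log (w z) =
      c + (∫ a, Real.log ‖z - a‖ ∂ν₁) - ∫ a, Real.log ‖z - a‖ ∂ν₂)
    (f : SchwartzMap ℂ ℂ) :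
    ∫⁻ z, ‖gg f m z‖ₑ ^ 2 * ENNReal.ofReal (w z) ≤
      ENNReal.ofReal ((57600000 * m * K) ^ 2) * ∫⁻ z, ‖f z‖ₑ ^ 2 * ENNReal.ofReal (w z) := by
  have hK := one_le_K hpos hw hwi hA
  have hK0 : 0 < K := by linarith
  have hA' : ∀ (c : ℂ) (r : ℝ), 0 < r →
      ((∫ z in Metric.ball c r, (w z)⁻¹) / (volume (Metric.ball c r)).toReal) *
      ((∫ z in Metric.ball c r, ((w z)⁻¹)⁻¹) / (volume (Metric.ball c r)).toReal) ≤ K := by
    intro c r hr
    simp only [inv_inv]
    rw [mul_comm]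
    exact hA c r hr
  have hw' : LocallyIntegrable (fun z => ((w z)⁻¹)⁻¹) volume := by
    simpa only [inv_inv] using hw
  have hθ : 0 < 9 / (16 * K) := by positivity
  -- the total mass
  have hs : (ν₁ univ + ν₂ univ).toReal ≤ 2 - 9 / (16 * K) := by
    rcases hmass with h | h | h
    · have h1 := mass_bound (w := fun z => (w z)⁻¹) (fun z => inv_pos.mpr (hpos z)) hwi hw' hA'
        hν₂ (c := -c) (by
          filter_upwards [hlog] with z hz
          rw [Real.log_inv, hz, h, integral_zero_measure]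
          ring)
      rw [h, Measure.coe_zero, Pi.zero_apply, zero_add]
      linarith
    · have h1 := mass_bound hpos hw hwi hA hν₁ (c := c) (by
          filter_upwards [hlog] with z hz
          rw [hz, h, integral_zero_measure]
          ring)
      rw [h, Measure.coe_zero, Pi.zero_apply, add_zero]
      linarith
    · have h2 : 0 ≤ 2 - 1 / K := by
        have : 1 / K ≤ 1 := by
          rw [div_le_one hK0]
          exact hK
        linarith
      have h3 := ENNReal.toReal_mono ENNReal.ofReal_ne_top h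
      rw [ENNReal.toReal_ofReal h2] at h3
      have h4 : 9 / (16 * K) ≤ 1 / K := by
        rw [div_le_div_iff₀ (by positivity) (by positivity)]
        linarith
      linarith
  have hb := pot_bound hm hν₁ hν₂ hs (by linarith) f
  -- the weight is a multiple of the exponential
  have hwe : ∀ᵐ z : ℂ, w z = Real.exp c *
      Real.exp ((∫ a, Real.log ‖z - a‖ ∂ν₁) - ∫ a, Real.log ‖z - a‖ ∂ν₂) := by
    filter_upwards [hlog] with z hz
    rw [← Real.exp_add, ← add_sub_assoc, ← hz, Real.exp_log (hpos z)]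
  have e : ∀ g : ℂ → ℂ, ∫⁻ z, ‖g z‖ₑ ^ 2 * ENNReal.ofReal (w z) =
      ENNReal.ofReal (Real.exp c) * ∫⁻ z, ‖g z‖ₑ ^ 2 * ENNReal.ofReal
        (Real.exp ((∫ a, Real.log ‖z - a‖ ∂ν₁) - ∫ a, Real.log ‖z - a‖ ∂ν₂)) := by
    intro g
    rw [← lintegral_const_mul' _ _ ENNReal.ofReal_ne_top]
    apply lintegral_congr_ae
    filter_upwards [hwe] with z hz
    rw [hz, ENNReal.ofReal_mul (Real.exp_pos _).le]
    ring
  have hN : NN m (2 - 9 / (16 * K)) ≤ ENNReal.ofReal ((57600000 * m * K) ^ 2) := by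
    unfold NN
    apply ENNReal.ofReal_le_ofReal
    have e1 : 2 - (2 - 9 / (16 * K)) = 9 / (16 * K) := by ring
    rw [e1]
    have h1 := term_const hK (le_refl (9 / (16 * K)))
    refine pow_le_pow_left₀ (by positivity) ?_ 2
    calc 200000 * m * (162 / (9 / (16 * K))) ≤ 200000 * m * (288 * K) :=
          mul_le_mul_of_nonneg_left h1 (by positivity)
      _ = 57600000 * m * K := by ring
  rw [e, e, mul_left_comm]
  exact mul_le_mul_right (hb.trans (mul_le_mul' hN le_rfl)) _

end Pool.Agent.Lib.MP_f0c028_an
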