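import Pool.Agent.Lib.MP_f0c028_an.RWDef

set_option autoImplicit false
set_option linter.unusedSectionVars false
namespace Pool.Agent.Lib.MP_f0c028_an

open MeasureTheory Real Set Filter Topology FourierTransform
open scoped InnerProductSpace

/-- inverse Fourier integral as a function on the plane -/
noncomputable def UU (h : ℂ → ℂ) (z : ℂ) : ℂ := 𝓕 h (-z)

theorem inner_formula (z w : ℂ) : ⟪z, w⟫_ℝ = z.re * w.re + z.im * w.im := by
  rw [Complex.inner]
  simp [Complex.mul_re]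
  ring

theorem UU_eq (h : ℂ → ℂ) (z : ℂ) :
    UU h z = ∫ ξ : ℂ, Complex.exp (2 * π * Complex.I * ((z.re * ξ.re + z.im * ξ.im : ℝ) : ℂ)) * h ξ := by
  unfold UU
  rw [Real.fourier_eq']
  apply integral_congr_ae
  filter_upwards with ξ
  rw [smul_eq_mul]
  congr 2
  rw [inner_formula]
  simp only [Complex.neg_re, Complex.neg_im]
  push_cast
  ring

section
variable {h : ℂ → ℂ} (hi : Integrable h) (hi1 : Integrable (fun ξ => ‖ξ‖ * ‖h ξ‖))
include hi

theorem UU_bound (z : ℂ) : ‖UU h z‖ ≤ ∫ ξ, ‖h ξ‖ := by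
  rw [UU_eq]
  refine (norm_integral_le_integral_norm _).trans (le_of_eq ?_)
  congr 1
  funext ξ
  rw [norm_mul, Complex.norm_exp]
  simp

theorem UU_tendsto : Tendsto (UU h) (cocompact ℂ) (𝓝 0) := by
  have h1 := tendsto_integral_exp_inner_smul_cocompact (V := ℂ) h
  have h2 : UU h = (fun w : ℂ => ∫ v, 𝐞 (-⟪v, w⟫_ℝ) • h v) ∘ (fun z => -z) := rfl
  rw [h2]
  exact h1.comp (Homeomorph.neg ℂ).isClosedEmbedding.tendsto_cocompact

include hi1

theorem UU_contDiff : ContDiff ℝ 1 (UU h) := by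
  have h1 : ContDiff ℝ 1 (𝓕 h) := by
    apply Real.contDiff_fourier (N := 1)
    intro n hn
    have hn' : n ≤ 1 := by exact_mod_cast hn
    interval_cases n
    · simpa using hi.norm
    · simpa using hi1
  exact h1.comp contDiff_neg

theorem UU_fderiv (z v : ℂ) :
    fderiv ℝ (UU h) z v = UU (fun ξ => 2 * π * Complex.I * (⟪ξ, v⟫_ℝ : ℂ) * h ξ) z := by
  have h1 := Real.hasFDerivAt_fourier hi hi1 (-z)
  have h2 := h1.comp z ((hasFDerivAt_id z).neg)
  have h3 : fderiv ℝ (UU h) z = _ := h2.fderiv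
  rw [h3]
  simp only [ContinuousLinearMap.comp_apply, ContinuousLinearMap.neg_apply,
    ContinuousLinearMap.id_apply, map_neg]
  have hint : Integrable (VectorFourier.fourierSMulRight (innerSL ℝ) h) := by
    refine Integrable.mono' (hi1.const_mul (2 * π)) ?_ ?_
    · exact hi.aestronglyMeasurable.fourierSMulRight
    · filter_upwards with ξ
      rw [VectorFourier.norm_fourierSMulRight, innerSL_apply_norm, mul_assoc]
  rw [Real.fourier_continuousLinearMap_apply hint]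
  unfold UU
  simp only [VectorFourier.fourierSMulRight_apply, innerSL_apply_apply]
  rw [Real.fourier_eq', Real.fourier_eq', ← integral_neg]
  congr 1
  funext ξ
  have h5 : ((innerSL ℝ) ξ) v = ⟪ξ, v⟫_ℝ := rfl
  rw [h5]
  simp only [smul_eq_mul, Complex.real_smul]
  ring

end

/-- the Fourier side of `B^j f` -/
noncomputable def hh (f : SchwartzMap ℂ ℂ) (j : ℕ) (ξ : ℂ) : ℂ :=
  (starRingEnd ℂ ξ / ξ) ^ j *
    ∫ x : ℂ, Complex.exp (-(2 * π * Complex.I * ((x.re * ξ.re + x.im * ξ.im : ℝ) : ℂ))) * f x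

/-- `B^j f` -/
noncomputable def gg (f : SchwartzMap ℂ ℂ) (j : ℕ) (z : ℂ) : ℂ := UU (hh f j) z

theorem hh_eq (f : SchwartzMap ℂ ℂ) (j : ℕ) (ξ : ℂ) :
    hh f j ξ = (starRingEnd ℂ ξ / ξ) ^ j * (𝓕 f) ξ := by
  unfold hh
  congr 1
  rw [SchwartzMap.fourier_coe, Real.fourier_eq']
  congr 1
  funext x
  rw [smul_eq_mul]
  congr 2
  rw [inner_formula]
  push_cast
  ring

theorem norm_ratio_le (ξ : ℂ) : ‖starRingEnd ℂ ξ / ξ‖ ≤ 1 := by
  rw [norm_div, Complex.norm_conj]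
  exact div_self_le_one _

theorem hh_norm_le (f : SchwartzMap ℂ ℂ) (j : ℕ) (ξ : ℂ) : ‖hh f j ξ‖ ≤ ‖(𝓕 f) ξ‖ := by
  rw [hh_eq, norm_mul, norm_pow]
  have := pow_le_one₀ (n := j) (norm_nonneg _) (norm_ratio_le ξ)
  exact (mul_le_mul_of_nonneg_right this (norm_nonneg _)).trans (one_mul _).le

theorem hh_meas (f : SchwartzMap ℂ ℂ) (j : ℕ) : Measurable (hh f j) := by
  have h1 : hh f j = fun ξ => (starRingEnd ℂ ξ / ξ) ^ j * (𝓕 f) ξ := funext (hh_eq f j)
  rw [h1]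
  have h2 : Continuous (𝓕 f : SchwartzMap ℂ ℂ) := (𝓕 f : SchwartzMap ℂ ℂ).continuous
  have h3 : Measurable (fun ξ : ℂ => starRingEnd ℂ ξ) := Complex.continuous_conj.measurable
  exact ((h3.div measurable_id).pow_const j).mul h2.measurable

theorem hh_int (f : SchwartzMap ℂ ℂ) (j : ℕ) : Integrable (hh f j) := by
  refine Integrable.mono' (𝓕 f : SchwartzMap ℂ ℂ).integrable.norm (hh_meas f j).aestronglyMeasurable ?_
  filter_upwards with ξ
  exact hh_norm_le f j ξ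

theorem hh_int1 (f : SchwartzMap ℂ ℂ) (j : ℕ) : Integrable (fun ξ => ‖ξ‖ * ‖hh f j ξ‖) := by
  have h1 := (𝓕 f : SchwartzMap ℂ ℂ).integrable_pow_mul volume 1
  refine Integrable.mono' h1 ?_ ?_
  · exact (measurable_norm.mul (hh_meas f j).norm).aestronglyMeasurable
  · filter_upwards with ξ
    rw [norm_mul, norm_norm, norm_norm, pow_one]
    exact mul_le_mul_of_nonneg_left (hh_norm_le f j ξ) (norm_nonneg _)

theorem gg_zero (f : SchwartzMap ℂ ℂ) (z : ℂ) : gg f 0 z = f z := by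
  unfold gg UU
  have h1 : hh f 0 = (𝓕 f : SchwartzMap ℂ ℂ) := by
    funext ξ
    rw [hh_eq]
    simp
  rw [h1, ← Real.fourierInv_eq_fourier_neg, ← SchwartzMap.fourierInv_coe]
  have h2 : 𝓕⁻ (𝓕 f : SchwartzMap ℂ ℂ) = f := by simp
  rw [h2]

theorem gg_rel (f : SchwartzMap ℂ ℂ) (j : ℕ) :
    ∃ P : ℂ → ℂ, ∀ z v : ℂ,
      fderiv ℝ (gg f (j + 1)) z v + Complex.I * fderiv ℝ (gg f (j + 1)) z (Complex.I * v) =
        starRingEnd ℂ v * P z ∧
      fderiv ℝ (gg f j) z v - Complex.I * fderiv ℝ (gg f j) z (Complex.I * v) = v * P z := by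
  refine ⟨UU (fun ξ => 2 * π * Complex.I * starRingEnd ℂ ξ * hh f j ξ), fun z v => ?_⟩
  have hI : ∀ (i : ℕ) (v : ℂ), Integrable (fun ξ : ℂ => Complex.exp (2 * π * Complex.I *
      ((z.re * ξ.re + z.im * ξ.im : ℝ) : ℂ)) * (2 * π * Complex.I * (⟪ξ, v⟫_ℝ : ℂ) * hh f i ξ)) := by
    intro i v
    refine Integrable.mono' ((hh_int1 f i).const_mul (2 * π * ‖v‖)) ?_ ?_
    · have h2 : Continuous (fun ξ : ℂ => Complex.exp (2 * π * Complex.I *
        ((z.re * ξ.re + z.im * ξ.im : ℝ) : ℂ)) * (2 * π * Complex.I * (⟪ξ, v⟫_ℝ : ℂ))) := by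
        have : Continuous (fun ξ : ℂ => (⟪ξ, v⟫_ℝ : ℝ)) := by fun_prop
        fun_prop
      have h3 := h2.measurable.mul (hh_meas f i)
      refine AEStronglyMeasurable.congr h3.aestronglyMeasurable ?_
      filter_upwards with ξ
      simp only [Pi.mul_apply]
      ring
    · filter_upwards with ξ
      have h3 : ‖Complex.exp (2 * π * Complex.I * ((z.re * ξ.re + z.im * ξ.im : ℝ) : ℂ))‖ = 1 := by
        rw [Complex.norm_exp]
        simp
      rw [norm_mul, h3, one_mul, norm_mul, norm_mul, Complex.norm_real]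
      have h4 : ‖(2 * π * Complex.I : ℂ)‖ = 2 * π := by
        simp [abs_of_pos Real.pi_pos]
      rw [h4]
      have h5 : ‖(⟪ξ, v⟫_ℝ : ℝ)‖ ≤ ‖ξ‖ * ‖v‖ := norm_inner_le_norm ξ v
      have h6 := norm_nonneg (hh f i ξ)
      calc 2 * π * ‖(⟪ξ, v⟫_ℝ : ℝ)‖ * ‖hh f i ξ‖ ≤ 2 * π * (‖ξ‖ * ‖v‖) * ‖hh f i ξ‖ := by
            gcongr
        _ = 2 * π * ‖v‖ * (‖ξ‖ * ‖hh f i ξ‖) := by ring
  have hinner : ∀ ξ : ℂ, ((⟪ξ, v⟫_ℝ : ℝ) : ℂ) + Complex.I * ((⟪ξ, Complex.I * v⟫_ℝ : ℝ) : ℂ) =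
      ξ * starRingEnd ℂ v := by
    intro ξ
    rw [inner_formula, inner_formula]
    apply Complex.ext <;> simp <;> ring
  have hinner2 : ∀ ξ : ℂ, ((⟪ξ, v⟫_ℝ : ℝ) : ℂ) - Complex.I * ((⟪ξ, Complex.I * v⟫_ℝ : ℝ) : ℂ) =
      starRingEnd ℂ ξ * v := by
    intro ξ
    rw [inner_formula, inner_formula]
    apply Complex.ext <;> simp <;> ring
  constructor
  · have e1 : ∀ u, fderiv ℝ (gg f (j + 1)) z u = _ := fun u =>
      UU_fderiv (hh_int f (j+1)) (hh_int1 f (j+1)) z u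
    rw [e1 v, e1 (Complex.I * v), UU_eq, UU_eq, UU_eq, ← integral_const_mul, ← integral_add,
      ← integral_const_mul]
    · apply integral_congr_ae
      have hne : ∀ᵐ ξ : ℂ, ξ ≠ 0 := by
        rw [ae_iff]; simp
      filter_upwards [hne] with ξ hξ
      have h3 : hh f (j + 1) ξ = (starRingEnd ℂ ξ / ξ) * hh f j ξ := by
        rw [hh_eq, hh_eq, pow_succ]; ring
      have h4 : ξ * hh f (j + 1) ξ = starRingEnd ℂ ξ * hh f j ξ := by
        rw [h3]; field_simp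
      linear_combination (Complex.exp (2 * π * Complex.I *
        ((z.re * ξ.re + z.im * ξ.im : ℝ) : ℂ)) * (2 * π * Complex.I) * hh f (j + 1) ξ) * hinner ξ +
        (Complex.exp (2 * π * Complex.I *
        ((z.re * ξ.re + z.im * ξ.im : ℝ) : ℂ)) * (2 * π * Complex.I) * starRingEnd ℂ v) * h4
    · exact hI (j+1) v
    · exact (hI (j+1) (Complex.I * v)).const_mul _
  · have e1 : ∀ u, fderiv ℝ (gg f j) z u = _ := fun u =>
      UU_fderiv (hh_int f j) (hh_int1 f j) z u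
    rw [e1 v, e1 (Complex.I * v), UU_eq, UU_eq, UU_eq, ← integral_const_mul, ← integral_sub,
      ← integral_const_mul]
    · apply integral_congr_ae
      filter_upwards with ξ
      linear_combination (Complex.exp (2 * π * Complex.I *
        ((z.re * ξ.re + z.im * ξ.im : ℝ) : ℂ)) * (2 * π * Complex.I) * hh f j ξ) * hinner2 ξ
    · exact hI j v
    · exact (hI j (Complex.I * v)).const_mul _

end Pool.Agent.Lib.MP_f0c028_an
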