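import Pool.Agent.Lib.MP_f0c028_an.Mg.G015

set_option autoImplicit false

/-! # Duality: from the weight `1 / w` to the weight `w`, conclusion -/

open Real

namespace Pool.Agent.Lib.MP_f0c028_an

open MeasureTheory Set Filter Topology
open scoped ENNReal ContDiff

theorem eL2_sq {μ : Measure ℂ} (u : ℂ → ℂ) : eLpNorm u 2 μ ^ 2 = ∫⁻ z, ‖u z‖ₑ ^ 2 ∂μ := by
  rw [eLpNorm_eq_lintegral_rpow_enorm_toReal (by norm_num) (by norm_num), ← ENNReal.rpow_natCast,
    ← ENNReal.rpow_mul]
  norm_num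

theorem le_of_sq_le_sq_ennreal {x y : ℝ≥0∞} (h : x ^ 2 ≤ y ^ 2) : x ≤ y := by
  by_contra hcon
  push Not at hcon
  have : y ^ 2 < x ^ 2 := ENNReal.pow_lt_pow_left (by norm_num) hcon
  exact absurd h (not_le.mpr this)

theorem dual_core {m : ℕ} (hm : 1 ≤ m) {w : ℂ → ℝ} (hwm : Measurable w) (hpos : ∀ z, 0 < w z)
    (hwi : LocallyIntegrable (fun z => (w z)⁻¹) volume) {N : ℝ≥0∞} (hN : N ≠ ⊤)
    (H : ∀ h : SchwartzMap ℂ ℂ, ∫⁻ z, ‖gg h m z‖ₑ ^ 2 * ENNReal.ofReal (w z)⁻¹ ≤
      N * ∫⁻ z, ‖h z‖ₑ ^ 2 * ENNReal.ofReal (w z)⁻¹) (f : SchwartzMap ℂ ℂ)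
    (hA : ∫⁻ z, ‖f z‖ₑ ^ 2 * ENNReal.ofReal (w z) ≠ ⊤) {k : ℂ → ℂ}
    (hk : MemLp k 2 (volume + volume.withDensity fun z => ENNReal.ofReal (w z)⁻¹)) :
    ‖∫ z, gg f m z * k z‖ₑ ^ 2 ≤ (∫⁻ z, ‖f z‖ₑ ^ 2 * ENNReal.ofReal (w z)) *
      (N * ∫⁻ z, ‖k z‖ₑ ^ 2 * ENNReal.ofReal (w z)⁻¹) := by
  set A := ∫⁻ z, ‖f z‖ₑ ^ 2 * ENNReal.ofReal (w z) with hAdef
  set ν : Measure ℂ := volume.withDensity fun z => ENNReal.ofReal (w z)⁻¹ with hν
  have hden : Measurable fun z => ENNReal.ofReal (w z)⁻¹ := by fun_prop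
  have hνint : ∀ u : ℂ → ℂ, Measurable u → ∫⁻ z, ‖u z‖ₑ ^ 2 ∂ν =
      ∫⁻ z, ‖u z‖ₑ ^ 2 * ENNReal.ofReal (w z)⁻¹ := by
    intro u hu
    rw [hν, lintegral_withDensity_eq_lintegral_mul _ hden (by fun_prop)]
    refine lintegral_congr fun z => ?_
    rw [Pi.mul_apply, mul_comm]
  have hνac : ν ≪ volume := withDensity_absolutelyContinuous _ _
  have hfin : IsFiniteMeasureOnCompacts ((volume : Measure ℂ) + ν) := by
    refine ⟨fun K hK => ?_⟩
    rw [Measure.add_apply]
    refine ENNReal.add_lt_top.mpr ⟨hK.measure_lt_top, ?_⟩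
    rw [hν, withDensity_apply _ hK.measurableSet]
    have h1 := (hwi.integrableOn_isCompact hK).2
    rw [hasFiniteIntegral_iff_ofReal (by
      filter_upwards with z
      exact (inv_pos.mpr (hpos z)).le)] at h1
    exact h1
  have hk1 : MemLp k 2 volume := hk.mono_measure (Measure.le_add_right le_rfl)
  have hk2 : MemLp k 2 ν := hk.mono_measure (Measure.le_add_left le_rfl)
  have hkae : AEMeasurable k volume := hk1.1.aemeasurable
  -- the integral of `k` against `ν`
  have hkν : ∫⁻ z, ‖k z‖ₑ ^ 2 ∂ν = ∫⁻ z, ‖k z‖ₑ ^ 2 * ENNReal.ofReal (w z)⁻¹ := by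
    rw [hν, lintegral_withDensity_eq_lintegral_mul₀ hden.aemeasurable
      ((hk1.1.enorm).pow_const 2)]
    refine lintegral_congr fun z => ?_
    rw [Pi.mul_apply, mul_comm]
  rw [← hkν, ← eL2_sq]
  set S : ℝ≥0∞ := (A * N) ^ (1 / (2 : ℝ)) with hS
  have hS2 : S ^ 2 = A * N := by
    rw [hS, ← ENNReal.rpow_natCast, ← ENNReal.rpow_mul]
    norm_num
  have hSfin : S ≠ ⊤ := by
    rw [hS]
    exact ENNReal.rpow_ne_top_of_nonneg (by norm_num) (ENNReal.mul_ne_top hA hN)
  have hg2 := gg_memLp f hm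
  set Gn := eLpNorm (gg f m) 2 volume with hGn
  have hGfin : Gn ≠ ⊤ := hg2.2.ne
  have hgoal : ‖∫ z, gg f m z * k z‖ₑ ≤ S * eLpNorm k 2 ν := by
    refine ENNReal.le_of_forall_pos_le_add fun ε hε _ => ?_
    -- choice of the approximation
    have hden0 : S + Gn + 1 ≠ ⊤ := by
      simp [hSfin, hGfin]
    set δ : ℝ := ε / ((S + Gn + 1).toReal) with hδ
    have hpos1 : 0 < (S + Gn + 1).toReal := by
      refine ENNReal.toReal_pos ?_ hden0
      simp
    have hε' : (0 : ℝ) < ε := hε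
    have hδ0 : 0 < δ := by positivity
    obtain ⟨h, hh1, hh2, hh3⟩ := hk.exist_eLpNorm_sub_le (by norm_num) (by norm_num) hδ0
    set hS' : SchwartzMap ℂ ℂ := hh1.toSchwartzMap hh2 with hhS
    have hcoe : ∀ z, hS' z = h z := fun z => rfl
    have hd1 : eLpNorm (k - h) 2 volume ≤ ENNReal.ofReal δ :=
      (eLpNorm_mono_measure _ (Measure.le_add_right le_rfl)).trans hh3
    have hd2 : eLpNorm (k - h) 2 ν ≤ ENNReal.ofReal δ :=
      (eLpNorm_mono_measure _ (Measure.le_add_left le_rfl)).trans hh3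
    have hhm : MemLp h 2 volume := hh2.continuous.memLp_of_hasCompactSupport hh1
    have hi1 : Integrable (fun z => gg f m z * h z) := hg2.integrable_mul hhm
    have hi2 : Integrable (fun z => gg f m z * k z) := hg2.integrable_mul hk1
    have hi3 : Integrable (fun z => gg f m z * (k - h) z) := by
      have := hi2.sub hi1
      refine this.congr ?_
      filter_upwards with z
      simp only [Pi.sub_apply]
      ring
    have hsplit : ∫ z, gg f m z * k z = (∫ z, gg f m z * h z) + ∫ z, gg f m z * (k - h) z := by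
      rw [← integral_add hi1 hi3]
      refine integral_congr_ae ?_
      filter_upwards with z
      simp only [Pi.sub_apply]
      ring
    have b1 : ‖∫ z, gg f m z * h z‖ₑ ≤ S * eLpNorm h 2 ν := by
      apply le_of_sq_le_sq_ennreal
      rw [mul_pow, hS2, eL2_sq, hνint h hh2.continuous.measurable, mul_assoc]
      have e1 : ∫ z, gg f m z * h z = ∫ z, f z * gg hS' m z := pair_symm f hS' m
      rw [e1]
      refine (cs_w2 hpos hwm f.continuous.measurable
        (gg_contDiff hS' m).continuous.measurable).trans ?_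
      exact mul_le_mul_right (H hS') A
    have b2 : ‖∫ z, gg f m z * (k - h) z‖ₑ ≤ Gn * ENNReal.ofReal δ := by
      refine le_trans ?_ (mul_le_mul_right hd1 Gn)
      apply le_of_sq_le_sq_ennreal
      rw [mul_pow, hGn, eL2_sq, eL2_sq]
      have e1 : ‖∫ z, gg f m z * (k - h) z‖ₑ ≤ ∫⁻ z, ‖gg f m z‖ₑ * ‖(k - h) z‖ₑ := by
        refine (enorm_integral_le_lintegral_enorm _).trans (le_of_eq ?_)
        refine lintegral_congr fun z => ?_
        rw [enorm_mul]
      refine (pow_le_pow_left' e1 2).trans (cs_lint ?_ ?_)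
      · exact (gg_contDiff f m).continuous.measurable.enorm.aemeasurable
      · exact (hkae.sub hh2.continuous.measurable.aemeasurable).enorm
    have b3 : eLpNorm h 2 ν ≤ eLpNorm k 2 ν + ENNReal.ofReal δ := by
      have e1 : h = k - (k - h) := by
        funext z
        simp
      have e2 : AEStronglyMeasurable (k - h) ν :=
        hk2.1.sub hh2.continuous.aestronglyMeasurable
      calc eLpNorm h 2 ν = eLpNorm (k - (k - h)) 2 ν := by rw [← e1]
        _ ≤ eLpNorm k 2 ν + eLpNorm (k - h) 2 ν := eLpNorm_sub_le hk2.1 e2 (by norm_num)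
        _ ≤ _ := by gcongr
    calc ‖∫ z, gg f m z * k z‖ₑ ≤ ‖∫ z, gg f m z * h z‖ₑ + ‖∫ z, gg f m z * (k - h) z‖ₑ := by
          rw [hsplit]
          exact enorm_add_le _ _
      _ ≤ S * (eLpNorm k 2 ν + ENNReal.ofReal δ) + Gn * ENNReal.ofReal δ := by
          gcongr
          exact b1.trans (by gcongr)
      _ = S * eLpNorm k 2 ν + (S + Gn) * ENNReal.ofReal δ := by ring
      _ ≤ S * eLpNorm k 2 ν + (S + Gn + 1) * ENNReal.ofReal δ :=
          add_le_add le_rfl (mul_le_mul' le_self_add le_rfl)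
      _ = S * eLpNorm k 2 ν + ε := by
          congr 1
          rw [← ENNReal.ofReal_toReal hden0, ← ENNReal.ofReal_mul hpos1.le, hδ,
            mul_div_cancel₀ _ hpos1.ne']
          exact ENNReal.ofReal_coe_nnreal
  calc ‖∫ z, gg f m z * k z‖ₑ ^ 2 ≤ (S * eLpNorm k 2 ν) ^ 2 := pow_le_pow_left' hgoal 2
    _ = A * (N * eLpNorm k 2 ν ^ 2) := by rw [mul_pow, hS2, mul_assoc]

/-- Duality for measurable weights. -/
theorem dual_meas {m : ℕ} (hm : 1 ≤ m) {w : ℂ → ℝ} (hwm : Measurable w) (hpos : ∀ z, 0 < w z)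
    (hwi : LocallyIntegrable (fun z => (w z)⁻¹) volume) {N : ℝ≥0∞} (hN0 : N ≠ 0) (hN : N ≠ ⊤)
    (H : ∀ h : SchwartzMap ℂ ℂ, ∫⁻ z, ‖gg h m z‖ₑ ^ 2 * ENNReal.ofReal (w z)⁻¹ ≤
      N * ∫⁻ z, ‖h z‖ₑ ^ 2 * ENNReal.ofReal (w z)⁻¹) (f : SchwartzMap ℂ ℂ) :
    ∫⁻ z, ‖gg f m z‖ₑ ^ 2 * ENNReal.ofReal (w z) ≤
      N * ∫⁻ z, ‖f z‖ₑ ^ 2 * ENNReal.ofReal (w z) := by
  by_cases hA : ∫⁻ z, ‖f z‖ₑ ^ 2 * ENNReal.ofReal (w z) = ⊤
  · rw [hA, ENNReal.mul_top hN0]
    exact le_top
  set g := gg f m with hg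
  have hgm : Measurable g := (gg_contDiff f m).continuous.measurable
  set B := ∫ ξ, ‖hh f m ξ‖ with hB
  have hgB : ∀ z, ‖g z‖ ≤ B := fun z => UU_bound (hh_int f m) z
  have hB0 : 0 ≤ B := (norm_nonneg _).trans (hgB 0)
  have hg2 : MemLp g 2 volume := gg_memLp f hm
  set F : ℂ → ℝ≥0∞ := fun z => ‖g z‖ₑ ^ 2 * ENNReal.ofReal (w z) with hF
  have hFm : Measurable F := by fun_prop
  set E : ℕ → Set ℂ := fun n => {z | ‖z‖ < n ∧ w z ≤ n} with hE
  have hEm : ∀ n, MeasurableSet (E n) := by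
    intro n
    exact (measurableSet_lt measurable_norm measurable_const).inter
      (measurableSet_le hwm measurable_const)
  -- the bound for the truncated integrals
  have hT : ∀ n, ∫⁻ z, (E n).indicator F z ≤
      N * ∫⁻ z, ‖f z‖ₑ ^ 2 * ENNReal.ofReal (w z) := by
    intro n
    set k : ℂ → ℂ := (E n).indicator fun z => (starRingEnd ℂ) (g z) * (w z : ℂ) with hk
    have hkm : Measurable k := by
      refine Measurable.indicator ?_ (hEm n)
      exact (Complex.continuous_conj.measurable.comp hgm).mul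
        (Complex.continuous_ofReal.measurable.comp hwm)
    have hkb : ∀ z, ‖k z‖ ≤ (Metric.ball (0 : ℂ) n).indicator (fun _ => B * n) z := by
      intro z
      by_cases hz : z ∈ E n
      · have hz' : z ∈ Metric.ball (0 : ℂ) n := by
          rw [Metric.mem_ball, dist_zero_right]
          exact hz.1
        rw [hk, indicator_of_mem hz, indicator_of_mem hz', norm_mul, RCLike.norm_conj,
          Complex.norm_real, Real.norm_eq_abs, abs_of_pos (hpos z)]
        exact mul_le_mul (hgB z) hz.2 (hpos z).le hB0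
      · rw [hk, indicator_of_notMem hz, norm_zero]
        exact indicator_nonneg (fun _ _ => by positivity) z
    have hball : (volume + volume.withDensity (fun z => ENNReal.ofReal (w z)⁻¹) : Measure ℂ)
        (Metric.ball (0 : ℂ) n) ≠ ⊤ := by
      rw [Measure.add_apply]
      refine ENNReal.add_ne_top.mpr ⟨measure_ball_lt_top.ne, ?_⟩
      rw [withDensity_apply _ measurableSet_ball]
      have h1 := (intOn_ball hwi 0 n).2
      rw [hasFiniteIntegral_iff_ofReal (by
        filter_upwards with z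
        exact (inv_pos.mpr (hpos z)).le)] at h1
      exact h1.ne
    have hkL : MemLp k 2 (volume + volume.withDensity fun z => ENNReal.ofReal (w z)⁻¹) := by
      refine (memLp_indicator_const 2 measurableSet_ball (B * n) (Or.inr hball)).mono'
        hkm.aestronglyMeasurable ?_
      filter_upwards with z
      exact hkb z
    have hcore := dual_core hm hwm hpos hwi hN H f hA hkL
    -- the two integrals
    have e1 : ∫⁻ z, ‖k z‖ₑ ^ 2 * ENNReal.ofReal (w z)⁻¹ = ∫⁻ z, (E n).indicator F z := by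
      refine lintegral_congr fun z => ?_
      by_cases hz : z ∈ E n
      · rw [hk, indicator_of_mem hz, indicator_of_mem hz, hF]
        simp only
        rw [enorm_mul, mul_pow]
        have h1 : ‖(starRingEnd ℂ) (g z)‖ₑ = ‖g z‖ₑ := by
          rw [← ofReal_norm, RCLike.norm_conj, ofReal_norm]
        have h2 : ‖(w z : ℂ)‖ₑ = ENNReal.ofReal (w z) := by
          rw [← ofReal_norm, Complex.norm_real, Real.norm_eq_abs, abs_of_pos (hpos z)]
        rw [h1, h2, mul_assoc, sq (ENNReal.ofReal (w z)), mul_assoc (ENNReal.ofReal (w z)),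
          ← ENNReal.ofReal_mul (hpos z).le, mul_inv_cancel₀ (hpos z).ne', ENNReal.ofReal_one,
          mul_one]
      · rw [hk, indicator_of_notMem hz, indicator_of_notMem hz]
        simp
    have e2 : ‖∫ z, g z * k z‖ₑ = ∫⁻ z, (E n).indicator F z := by
      have h1 : ∀ z, g z * k z = (((E n).indicator (fun z => ‖g z‖ ^ 2 * w z) z : ℝ) : ℂ) := by
        intro z
        by_cases hz : z ∈ E n
        · rw [hk, indicator_of_mem hz, indicator_of_mem hz, ← mul_assoc, Complex.mul_conj,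
            Complex.normSq_eq_norm_sq]
          push_cast
          ring
        · rw [hk, indicator_of_notMem hz, indicator_of_notMem hz]
          simp
      have hk1 : MemLp k 2 volume := hkL.mono_measure (Measure.le_add_right le_rfl)
      have hi : Integrable (fun z => g z * k z) := hg2.integrable_mul hk1
      have hnn : ∀ z, 0 ≤ (E n).indicator (fun z => ‖g z‖ ^ 2 * w z) z := by
        intro z
        refine indicator_nonneg (fun z _ => ?_) z
        have := hpos z
        positivity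
      have hi2 : Integrable ((E n).indicator fun z => ‖g z‖ ^ 2 * w z) := by
        refine hi.norm.congr ?_
        filter_upwards with z
        rw [h1, Complex.norm_real, Real.norm_eq_abs, abs_of_nonneg (hnn z)]
      simp_rw [h1]
      rw [integral_complex_ofReal, ← ofReal_norm, Complex.norm_real, Real.norm_eq_abs,
        abs_of_nonneg (integral_nonneg hnn),
        ofReal_integral_eq_lintegral_ofReal hi2 (by filter_upwards with z; exact hnn z)]
      refine lintegral_congr fun z => ?_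
      by_cases hz : z ∈ E n
      · rw [indicator_of_mem hz, indicator_of_mem hz, hF]
        simp only
        rw [ENNReal.ofReal_mul (by positivity), ENNReal.ofReal_pow (norm_nonneg _), ofReal_norm]
      · rw [indicator_of_notMem hz, indicator_of_notMem hz, ENNReal.ofReal_zero]
    have hTfin : ∫⁻ z, (E n).indicator F z ≠ ⊤ := by
      rw [← e2]
      exact enorm_ne_top
    rw [e1, e2] at hcore
    rcases eq_or_ne (∫⁻ z, (E n).indicator F z) 0 with h0 | h0
    · rw [h0]
      exact zero_le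
    · rw [sq, ← mul_assoc, mul_comm (∫⁻ z, ‖f z‖ₑ ^ 2 * ENNReal.ofReal (w z)) N] at hcore
      exact (ENNReal.mul_le_mul_iff_left h0 hTfin).mp hcore
  -- monotone convergence
  have hmono : Monotone fun n => (E n).indicator F := by
    intro n n' hnn'
    refine indicator_le_indicator_of_subset ?_ (fun _ => zero_le)
    intro z hz
    have : (n : ℝ) ≤ n' := by exact_mod_cast hnn'
    exact ⟨hz.1.trans_le this, hz.2.trans this⟩
  have hsup : ∀ z, F z = ⨆ n, (E n).indicator F z := by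
    intro z
    apply le_antisymm
    · obtain ⟨n, hn⟩ := exists_nat_gt (max ‖z‖ (w z))
      have hz : z ∈ E n :=
        ⟨(le_max_left _ _).trans_lt hn, ((le_max_right _ _).trans_lt hn).le⟩
      refine le_iSup_of_le n ?_
      rw [indicator_of_mem hz]
    · exact iSup_le fun n => indicator_le_self _ _ z
  calc ∫⁻ z, F z = ∫⁻ z, ⨆ n, (E n).indicator F z := lintegral_congr hsup
    _ = ⨆ n, ∫⁻ z, (E n).indicator F z :=
        lintegral_iSup (fun n => hFm.indicator (hEm n)) hmono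
    _ ≤ _ := iSup_le hT

/-- Duality. -/
theorem dual_main {m : ℕ} (hm : 1 ≤ m) {w : ℂ → ℝ} (hpos : ∀ z, 0 < w z)
    (hw : LocallyIntegrable w volume) (hwi : LocallyIntegrable (fun z => (w z)⁻¹) volume)
    {N : ℝ≥0∞} (hN0 : N ≠ 0) (hN : N ≠ ⊤)
    (H : ∀ h : SchwartzMap ℂ ℂ, ∫⁻ z, ‖gg h m z‖ₑ ^ 2 * ENNReal.ofReal (w z)⁻¹ ≤
      N * ∫⁻ z, ‖h z‖ₑ ^ 2 * ENNReal.ofReal (w z)⁻¹) (f : SchwartzMap ℂ ℂ) :
    ∫⁻ z, ‖gg f m z‖ₑ ^ 2 * ENNReal.ofReal (w z) ≤
      N * ∫⁻ z, ‖f z‖ₑ ^ 2 * ENNReal.ofReal (w z) := by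
  set v : ℂ → ℝ := fun z => if 0 < hw.aestronglyMeasurable.mk w z then
    hw.aestronglyMeasurable.mk w z else 1 with hv
  have hmk : Measurable (hw.aestronglyMeasurable.mk w) :=
    hw.aestronglyMeasurable.stronglyMeasurable_mk.measurable
  have hvm : Measurable v :=
    Measurable.ite (measurableSet_lt measurable_const hmk) hmk measurable_const
  have hvpos : ∀ z, 0 < v z := by
    intro z
    rw [hv]
    simp only
    split_ifs with h
    · exact h
    · exact one_pos
  have hvw : ∀ᵐ z, v z = w z := by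
    filter_upwards [hw.aestronglyMeasurable.ae_eq_mk] with z hz
    rw [hv]
    simp only
    rw [← hz, if_pos (hpos z)]
  have hvi : LocallyIntegrable (fun z => (v z)⁻¹) volume := by
    refine hwi.congr ?_
    filter_upwards [hvw] with z hz
    rw [hz]
  have e1 : ∀ u : ℂ → ℂ, ∫⁻ z, ‖u z‖ₑ ^ 2 * ENNReal.ofReal (v z) =
      ∫⁻ z, ‖u z‖ₑ ^ 2 * ENNReal.ofReal (w z) := by
    intro u
    apply lintegral_congr_ae
    filter_upwards [hvw] with z hz
    rw [hz]
  have e2 : ∀ u : ℂ → ℂ, ∫⁻ z, ‖u z‖ₑ ^ 2 * ENNReal.ofReal (v z)⁻¹ =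
      ∫⁻ z, ‖u z‖ₑ ^ 2 * ENNReal.ofReal (w z)⁻¹ := by
    intro u
    apply lintegral_congr_ae
    filter_upwards [hvw] with z hz
    rw [hz]
  rw [← e1, ← e1]
  apply dual_meas hm hvm hvpos hvi hN0 hN
  intro h
  rw [e2, e2]
  exact H h

end Pool.Agent.Lib.MP_f0c028_an
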