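import Pool.Agent.Lib.MP_f0c028_an.PW4

set_option autoImplicit false

/-! # Integral superpositions of power weights -/

open Real

namespace Pool.Agent.Lib.MP_f0c028_an

open MeasureTheory Set Filter Topology
open scoped ENNReal

/-- The constant of one term. -/
theorem term_const {K t : ℝ} (hK : 1 ≤ K) (ht : 9 / (16 * K) ≤ t) : 162 / t ≤ 288 * K := by
  have hK0 : 0 < K := by linarith
  have ht0 : 0 < t := lt_of_lt_of_le (by positivity) ht
  rw [div_le_iff₀ ht0]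
  have h1 : 288 * K * (9 / (16 * K)) = 162 := by
    field_simp
    norm_num
  calc (162 : ℝ) = 288 * K * (9 / (16 * K)) := h1.symm
    _ ≤ 288 * K * t := mul_le_mul_of_nonneg_left ht (by positivity)

theorem kernel_meas : Measurable fun q : ℂ × (ℂ × ℝ) =>
    ENNReal.ofReal (‖q.1 - q.2.1‖ ^ q.2.2) := by
  fun_prop

/-- The weight is an integral superposition of power weights. -/
theorem super_main {m : ℕ} (hm : 1 ≤ m) {w : ℂ → ℝ} {K : ℝ} (hpos : ∀ z, 0 < w z)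
    (hw : LocallyIntegrable w volume) (hwi : LocallyIntegrable (fun z => (w z)⁻¹) volume)
    (hA : ∀ (c : ℂ) (r : ℝ), 0 < r →
        ((∫ z in Metric.ball c r, w z) / (volume (Metric.ball c r)).toReal) *
        ((∫ z in Metric.ball c r, (w z)⁻¹) / (volume (Metric.ball c r)).toReal) ≤ K)
    {μ : Measure (ℂ × ℝ)} (hμf : SFinite μ)
    (hμ : ∀ᵐ p ∂μ, |p.2| ≤ 2 - 1 / K ∨ 0 < μ {p})
    (hsum : ∀ᵐ z, ENNReal.ofReal (w z) = ∫⁻ p, ENNReal.ofReal (‖z - p.1‖ ^ p.2) ∂μ)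
    (f : SchwartzMap ℂ ℂ) :
    ∫⁻ z, ‖gg f m z‖ₑ ^ 2 * ENNReal.ofReal (w z) ≤
      ENNReal.ofReal ((57600000 * m * K) ^ 2) * ∫⁻ z, ‖f z‖ₑ ^ 2 * ENNReal.ofReal (w z) := by
  have hK := one_le_K hpos hw hwi hA
  have hexp : ∀ (g : ℂ → ℂ), Measurable g → ∫⁻ z, ‖g z‖ₑ ^ 2 * ENNReal.ofReal (w z) =
      ∫⁻ p, ∫⁻ z, ‖g z‖ₑ ^ 2 * ENNReal.ofReal (‖z - p.1‖ ^ p.2) ∂volume ∂μ := by
    intro g hg
    have hgm : Measurable fun q : ℂ × (ℂ × ℝ) => ‖g q.1‖ₑ ^ 2 :=
      (hg.comp measurable_fst).enorm.pow_const 2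
    have h1 : ∫⁻ z, ‖g z‖ₑ ^ 2 * ENNReal.ofReal (w z) =
        ∫⁻ z, ∫⁻ p, ‖g z‖ₑ ^ 2 * ENNReal.ofReal (‖z - p.1‖ ^ p.2) ∂μ ∂volume := by
      apply lintegral_congr_ae
      filter_upwards [hsum] with z hz
      rw [hz, lintegral_const_mul]
      exact kernel_meas.comp measurable_prodMk_left
    rw [h1, lintegral_lintegral_swap]
    exact (hgm.mul kernel_meas).aemeasurable
  have hpw : ∀ (g : ℂ → ℂ) (p : ℂ × ℝ),
      ∫⁻ z, ‖g z‖ₑ ^ 2 * ENNReal.ofReal (‖z - p.1‖ ^ p.2) =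
        ∫⁻ z, ‖g z‖ₑ ^ 2 * ENNReal.ofReal (pw p.1 p.2 z) := by
    intro g p
    apply lintegral_congr_ae
    filter_upwards [pw_ae p.1 p.2] with z hz
    rw [hz]
  rw [hexp _ (gg_contDiff f m).continuous.measurable, hexp _ f.continuous.measurable]
  rw [← lintegral_const_mul']
  swap
  · exact ENNReal.ofReal_ne_top
  apply lintegral_mono_ae
  filter_upwards [hμ] with p hp
  have hθ : 0 < 9 / (16 * K) := by positivity
  have hexpo : 9 / (16 * K) ≤ 2 - |p.2| := by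
    rcases hp with hp | hp
    · have h1 : 9 / (16 * K) ≤ 1 / K := by
        rw [div_le_div_iff₀ (by positivity) (by positivity)]
        linarith
      linarith
    · set c : ℝ := (min (μ {p}) 1).toReal with hc
      have hcfin : min (μ {p}) 1 ≠ ⊤ := (lt_of_le_of_lt (min_le_right _ _) ENNReal.one_lt_top).ne
      have hc0 : 0 < c := ENNReal.toReal_pos (lt_min hp one_pos).ne' hcfin
      refine exponent_bound hpos hw hwi hA hc0 p.1 ?_
      filter_upwards [hsum] with z hz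
      have h1 : ENNReal.ofReal (c * ‖z - p.1‖ ^ p.2) ≤ ENNReal.ofReal (w z) := by
        rw [hz, ENNReal.ofReal_mul hc0.le, hc, ENNReal.ofReal_toReal hcfin]
        calc min (μ {p}) 1 * ENNReal.ofReal (‖z - p.1‖ ^ p.2) ≤
            μ {p} * ENNReal.ofReal (‖z - p.1‖ ^ p.2) := mul_le_mul' (min_le_left _ _) le_rfl
          _ = ∫⁻ q in {p}, ENNReal.ofReal (‖z - q.1‖ ^ q.2) ∂μ := by
              rw [lintegral_singleton, mul_comm]
          _ ≤ ∫⁻ q, ENNReal.ofReal (‖z - q.1‖ ^ q.2) ∂μ := setLIntegral_le_lintegral _ _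
      exact (ENNReal.ofReal_le_ofReal_iff (hpos z).le).mp h1
  have hβ : |p.2| < 2 := by linarith
  have hbound := pw_bound hm p.1 hβ f
  have hconst : 200000 * m * (162 / (2 - |p.2|)) ≤ 57600000 * m * K := by
    have h1 := term_const hK hexpo
    calc 200000 * m * (162 / (2 - |p.2|)) ≤ 200000 * m * (288 * K) :=
          mul_le_mul_of_nonneg_left h1 (by positivity)
      _ = 57600000 * m * K := by ring
  have hpos1 : 0 < 2 - |p.2| := by linarith
  rw [hpw, hpw]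
  refine hbound.trans (mul_le_mul_left (ENNReal.ofReal_le_ofReal ?_) _)
  exact pow_le_pow_left₀ (by positivity) hconst 2

/-- The reciprocal of the weight is an integral superposition of power weights. -/
theorem super_inv {m : ℕ} (hm : 1 ≤ m) {w : ℂ → ℝ} {K : ℝ} (hpos : ∀ z, 0 < w z)
    (hw : LocallyIntegrable w volume) (hwi : LocallyIntegrable (fun z => (w z)⁻¹) volume)
    (hA : ∀ (c : ℂ) (r : ℝ), 0 < r →
        ((∫ z in Metric.ball c r, w z) / (volume (Metric.ball c r)).toReal) *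
        ((∫ z in Metric.ball c r, (w z)⁻¹) / (volume (Metric.ball c r)).toReal) ≤ K)
    {μ : Measure (ℂ × ℝ)} (hμf : SFinite μ)
    (hμ : ∀ᵐ p ∂μ, |p.2| ≤ 2 - 1 / K ∨ 0 < μ {p})
    (hsum : ∀ᵐ z, ENNReal.ofReal (w z)⁻¹ = ∫⁻ p, ENNReal.ofReal (‖z - p.1‖ ^ p.2) ∂μ)
    (f : SchwartzMap ℂ ℂ) :
    ∫⁻ z, ‖gg f m z‖ₑ ^ 2 * ENNReal.ofReal (w z) ≤
      ENNReal.ofReal ((57600000 * m * K) ^ 2) * ∫⁻ z, ‖f z‖ₑ ^ 2 * ENNReal.ofReal (w z) := by
  have hK := one_le_K hpos hw hwi hA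
  have hm' : (1 : ℝ) ≤ m := by exact_mod_cast hm
  have hpos2 : (0 : ℝ) < (57600000 * m * K) ^ 2 := by positivity
  have hA' : ∀ (c : ℂ) (r : ℝ), 0 < r →
      ((∫ z in Metric.ball c r, (w z)⁻¹) / (volume (Metric.ball c r)).toReal) *
      ((∫ z in Metric.ball c r, ((w z)⁻¹)⁻¹) / (volume (Metric.ball c r)).toReal) ≤ K := by
    intro c r hr
    simp only [inv_inv]
    rw [mul_comm]
    exact hA c r hr
  have hw' : LocallyIntegrable (fun z => ((w z)⁻¹)⁻¹) volume := by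
    simpa only [inv_inv] using hw
  refine dual_main hm hpos hw hwi (by
    rw [ne_eq, ENNReal.ofReal_eq_zero, not_le]
    exact hpos2) ENNReal.ofReal_ne_top (fun h => ?_) f
  exact super_main hm (w := fun z => (w z)⁻¹) (fun z => inv_pos.mpr (hpos z)) hwi hw' hA' hμf hμ
    hsum h

end Pool.Agent.Lib.MP_f0c028_an
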