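import Mathlib

set_option autoImplicit false

/-! Definitions for the radial-weight theorem for powers of the Beurling transform.

`kap a m t = ∑_{s<m} cc a m s e^{-(a+2s)t}` is the (one-sided) kernel of the multiplier
`∏_{i<m} (p - a - 2i)/(p + a + 2i) = 1 + ∑_s cc a m s/(p + a + 2s)`. -/

namespace Pool.Agent.Lib.MP_f0c028_an

open Finset

/-- coefficients of the radial kernel -/
noncomputable def cc (a m s : ℕ) : ℝ :=
  2 * (-1) ^ (m + s) * (∏ l ∈ range m, ((a : ℝ) + s + l)) /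
    ((s.factorial : ℝ) * ((m - 1 - s).factorial : ℝ))

/-- the radial kernel -/
noncomputable def kap (a m : ℕ) (t : ℝ) : ℝ :=
  ∑ s ∈ range m, cc a m s * Real.exp (-(((a : ℝ) + 2 * s) * t))

/-- coefficients of `sinh t * kap a m t` -/
noncomputable def dd (a m s : ℕ) : ℝ :=
  (-1) ^ (m + s) * m * ((a + m - 1).choose (m - s) : ℝ) * ((a + m - 2 + s).choose s : ℝ)

open MeasureTheory Set
open scoped ENNReal

/-- The one-dimensional weight conditions. -/
structure LogA2 (W Wi : ℝ → ℝ≥0∞) (K : ℝ) : Prop where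
  meas : Measurable W
  measi : Measurable Wi
  mul_eq : ∀ x, W x * Wi x = 1
  one_le : 1 ≤ K
  loc : ∀ x l : ℝ, 0 < l → l ≤ 2 →
    (∫⁻ y in Icc x (x + l), W y) * (∫⁻ y in Icc x (x + l), Wi y) ≤ ENNReal.ofReal (1600 * K * l ^ 2)
  glob : ∀ x : ℝ, (∫⁻ y in Iic x, W y * ENNReal.ofReal (Real.exp (2 * y))) *
    (∫⁻ y in Iic x, Wi y * ENNReal.ofReal (Real.exp (2 * y))) ≤
      ENNReal.ofReal (K / 4 * Real.exp (4 * x))

end Pool.Agent.Lib.MP_f0c028_an
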