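import Pool.Agent.Lib.MP_f0c028_an.Mg.G012

set_option autoImplicit false
set_option linter.unusedSectionVars false
namespace Pool.Agent.Lib.MP_f0c028_an

open MeasureTheory Real Set Filter Topology
open scoped ENNReal

/-- null sets in logarithmic polar coordinates -/
theorem ae_logpolar (z₀ : ℂ) {p : ℂ → Prop} (hp : ∀ᵐ z, p z) :
    ∀ᵐ x : ℝ, ∀ᵐ θ : ℝ ∂(volume.restrict (Ioo (-π) π)), p (z₀ + Complex.exp (x + θ * Complex.I)) := by
  set N : Set ℂ := toMeasurable (volume : Measure ℂ) {z : ℂ | ¬ p z} with hN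
  have hN0 : volume N = 0 := by
    rw [hN, measure_toMeasurable]
    exact hp
  have hNm : MeasurableSet N := measurableSet_toMeasurable _ _
  have h1 := lintegral_logpolar z₀ (N.indicator 1) (measurable_one.indicator hNm)
  rw [lintegral_indicator_one hNm, hN0] at h1
  have hexp : Measurable (fun q : ℝ × ℝ => z₀ + Complex.exp (q.1 + q.2 * Complex.I)) := by fun_prop
  have hm : Measurable (fun x : ℝ => ENNReal.ofReal (Real.exp (2 * x)) *
      ∫⁻ θ in Ioo (-π) π, N.indicator (1 : ℂ → ℝ≥0∞) (z₀ + Complex.exp (x + θ * Complex.I))) := by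
    apply Measurable.mul (by fun_prop)
    apply Measurable.lintegral_prod_right'
      (f := fun q : ℝ × ℝ => N.indicator (1 : ℂ → ℝ≥0∞) (z₀ + Complex.exp (q.1 + q.2 * Complex.I)))
    exact (measurable_one.indicator hNm).comp hexp
  have h2 := (lintegral_eq_zero_iff hm).mp h1.symm
  filter_upwards [h2] with x hx
  simp only [Pi.zero_apply, mul_eq_zero, ENNReal.ofReal_eq_zero, not_le.mpr (Real.exp_pos _),
    false_or] at hx
  have h3 : Measurable (fun θ : ℝ => N.indicator (1 : ℂ → ℝ≥0∞) (z₀ + Complex.exp (x + θ * Complex.I))) :=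
    ((measurable_one.indicator hNm).comp hexp).comp (by fun_prop : Measurable (fun θ : ℝ => (x, θ)))
  rw [lintegral_eq_zero_iff h3] at hx
  filter_upwards [hx] with θ hθ
  by_contra hcon
  have h4 : z₀ + Complex.exp (x + θ * Complex.I) ∈ N := subset_toMeasurable _ _ hcon
  simp [Set.indicator_of_mem h4] at hθ

/-- a property of the radius that holds for almost all `x = log r` holds almost everywhere -/
theorem ae_of_radial (z₀ : ℂ) {p : ℝ → Prop} (hp : ∀ᵐ x : ℝ, p (Real.exp x)) :
    ∀ᵐ z : ℂ, p ‖z - z₀‖ := by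
  set N := toMeasurable volume {x : ℝ | ¬ p (Real.exp x)} with hN
  have hN0 : volume N = 0 := by
    rw [hN, measure_toMeasurable]
    exact hp
  have hNm : MeasurableSet N := measurableSet_toMeasurable _ _
  have hSm : MeasurableSet {z : ℂ | Real.log ‖z - z₀‖ ∈ N} := by
    have : Measurable (fun z : ℂ => Real.log ‖z - z₀‖) :=
      Real.measurable_log.comp (by fun_prop)
    exact this hNm
  have h1 := lintegral_logpolar z₀ ({z : ℂ | Real.log ‖z - z₀‖ ∈ N}.indicator 1)
    (measurable_one.indicator hSm)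
  rw [lintegral_indicator_one hSm] at h1
  have h2 : volume {z : ℂ | Real.log ‖z - z₀‖ ∈ N} = 0 := by
    rw [h1]
    have h3 : ∀ᵐ x : ℝ, ENNReal.ofReal (Real.exp (2 * x)) *
        ∫⁻ θ in Ioo (-π) π, {z : ℂ | Real.log ‖z - z₀‖ ∈ N}.indicator (1 : ℂ → ℝ≥0∞)
          (z₀ + Complex.exp (x + θ * Complex.I)) = 0 := by
      have h4 : ∀ᵐ x : ℝ, x ∉ N := by
        rw [ae_iff]
        simpa using hN0
      filter_upwards [h4] with x hx
      have h5 : ∀ θ : ℝ, {z : ℂ | Real.log ‖z - z₀‖ ∈ N}.indicator (1 : ℂ → ℝ≥0∞)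
          (z₀ + Complex.exp (x + θ * Complex.I)) = 0 := by
        intro θ
        apply Set.indicator_of_notMem
        intro h6
        apply hx
        have h7 := norm_pt_sub z₀ x θ
        unfold pt at h7
        simp only [mem_ofPred_eq, h7, Real.log_exp] at h6
        exact h6
      simp [h5]
    rw [lintegral_congr_ae h3]
    simp
  have h8 : ∀ᵐ z : ℂ, z ≠ z₀ := by
    rw [ae_iff]; simp
  have h9 : ∀ᵐ z : ℂ, Real.log ‖z - z₀‖ ∉ N := by
    rw [ae_iff]; simpa using h2
  filter_upwards [h8, h9] with z hz hz2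
  by_contra hcon
  apply hz2
  apply subset_toMeasurable
  have hpos : 0 < ‖z - z₀‖ := norm_pos_iff.mpr (sub_ne_zero.mpr hz)
  simp only [mem_ofPred_eq, Real.exp_log hpos]
  exact hcon

/-- measurable radial representative -/
theorem radial_rep (z₀ : ℂ) (w : ℂ → ℝ) (hw : AEMeasurable w) (hpos : ∀ z, 0 < w z)
    (hrad : ∀ z z' : ℂ, ‖z - z₀‖ = ‖z' - z₀‖ → w z = w z') :
    ∃ V Vi : ℝ → ℝ≥0∞, Measurable V ∧ Measurable Vi ∧ (∀ r, V r * Vi r = 1) ∧
      ∀ᵐ z : ℂ, ENNReal.ofReal (w z) = V ‖z - z₀‖ ∧ ENNReal.ofReal (w z)⁻¹ = Vi ‖z - z₀‖ := by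
  set w' := hw.mk w with hw'
  have hw'm : Measurable w' := hw.measurable_mk
  have hae : ∀ᵐ z, w z = w' z := hw.ae_eq_mk
  set V0 : ℝ → ℝ≥0∞ := fun r => (ENNReal.ofReal (2 * π))⁻¹ *
    ∫⁻ θ in Ioo (-π) π, ENNReal.ofReal (w' (z₀ + r * Complex.exp (θ * Complex.I))) with hV0
  have hV0m : Measurable V0 := by
    apply Measurable.const_mul
    apply Measurable.lintegral_prod_right'
      (f := fun q : ℝ × ℝ => ENNReal.ofReal (w' (z₀ + q.1 * Complex.exp (q.2 * Complex.I))))
    exact (hw'm.comp (by fun_prop)).ennreal_ofReal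
  set V : ℝ → ℝ≥0∞ := fun r => if V0 r = 0 ∨ V0 r = ∞ then 1 else V0 r with hV
  have hVm : Measurable V := by
    apply Measurable.ite _ measurable_const hV0m
    exact (hV0m (measurableSet_singleton 0)).union (hV0m (measurableSet_singleton ∞))
  have hV1 : ∀ r, V r ≠ 0 ∧ V r ≠ ∞ := by
    intro r
    simp only [hV]
    split_ifs with h
    · simp
    · push Not at h
      exact h
  refine ⟨V, fun r => (V r)⁻¹, hVm, hVm.inv, fun r => ENNReal.mul_inv_cancel (hV1 r).1 (hV1 r).2, ?_⟩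
  have h1 : ∀ᵐ x : ℝ, V (Real.exp x) = ENNReal.ofReal (w (z₀ + (Real.exp x : ℝ))) := by
    filter_upwards [ae_logpolar z₀ hae] with x hx
    have h2 : V0 (Real.exp x) = ENNReal.ofReal (w (z₀ + (Real.exp x : ℝ))) := by
      simp only [hV0]
      have h3 : ∫⁻ θ in Ioo (-π) π, ENNReal.ofReal
          (w' (z₀ + ((Real.exp x : ℝ) : ℂ) * Complex.exp (θ * Complex.I))) =
          ∫⁻ θ in Ioo (-π) π, ENNReal.ofReal (w (z₀ + (Real.exp x : ℝ))) := by
        apply lintegral_congr_ae
        filter_upwards [hx] with θ hθ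
        have h4 : z₀ + ((Real.exp x : ℝ) : ℂ) * Complex.exp (θ * Complex.I) =
            z₀ + Complex.exp (x + θ * Complex.I) := by
          rw [Complex.ofReal_exp, ← Complex.exp_add]
        rw [h4, ← hθ]
        congr 1
        apply hrad
        have h5 := norm_pt_sub z₀ x θ
        unfold pt at h5
        rw [h5, add_sub_cancel_left, Complex.norm_real, Real.norm_eq_abs, abs_of_pos (Real.exp_pos _)]
      rw [h3, lintegral_const, Measure.restrict_apply MeasurableSet.univ, univ_inter,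
        Real.volume_Ioo]
      have h6 : π - -π = 2 * π := by ring
      rw [h6, mul_comm (ENNReal.ofReal (w _)), ← mul_assoc, ENNReal.inv_mul_cancel, one_mul]
      · simp [Real.pi_pos]
      · exact ENNReal.ofReal_ne_top
    simp only [hV]
    rw [if_neg, h2]
    rw [h2]
    push Not
    exact ⟨by simpa using hpos _, ENNReal.ofReal_ne_top⟩
  have h2 := ae_of_radial z₀ (p := fun r => V r = ENNReal.ofReal (w (z₀ + (r : ℝ)))) h1
  filter_upwards [h2] with z hz
  have h3 : w (z₀ + ((‖z - z₀‖ : ℝ) : ℂ)) = w z := by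
    apply hrad
    rw [add_sub_cancel_left, Complex.norm_real, norm_norm]
  rw [h3] at hz
  refine ⟨hz.symm, ?_⟩
  rw [hz, ENNReal.ofReal_inv_of_pos (hpos z)]

end Pool.Agent.Lib.MP_f0c028_an
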